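import Pool.Agent.E8helper4.FV3.G1

set_option autoImplicit false
set_option linter.unusedVariables false

open Complex MeasureTheory Metric Set Filter Topology ComplexConjugate
open Pool.Agent.Results.MP_83fd13_an.BranchSingularities (Solvable)

namespace Pool.Agent.E8helper4.FV

lemma DD_add (a : ℝ) (φ : ℂ → ℂ) (t : ℝ) (u v : ℤ → ℂ) :
    DD a φ t (fun m => u m + v m) = fun m => DD a φ t u m + DD a φ t v m := by
  funext m; unfold DD; ring

lemma DDi_add (a : ℝ) (φ : ℂ → ℂ) (t : ℝ) (k : ℕ) : ∀ (u v : ℤ → ℂ),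
    (DD a φ t)^[k] (fun m => u m + v m) =
      fun m => ((DD a φ t)^[k] u) m + ((DD a φ t)^[k] v) m := by
  induction k with
  | zero => intro u v; rfl
  | succ k ih =>
    intro u v
    rw [Function.iterate_succ_apply, DD_add, ih]
    rfl

lemma DDi_cont (a : ℝ) {φ : ℂ → ℂ} {r : ℝ} (hr : 1 < r) (hφ : DifferentiableOn ℂ φ (ball 0 r))
    (u : ℝ → ℤ → ℂ) (hu : ∀ m, Continuous fun t => u t m) (k : ℕ) :
    ∀ m, Continuous fun t => ((DD a φ t)^[k] (u t)) m := by
  have hx := xx_cont hr hφ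
  have hX : Continuous fun t => conj (xx φ t) := Complex.continuous_conj.comp hx
  induction k with
  | zero => exact hu
  | succ k ih =>
    intro m
    have e : (fun t => ((DD a φ t)^[k + 1] (u t)) m) = fun t => xx φ t *
        ((DD a φ t)^[k] (u t)) (m - 1) + (a : ℂ) * conj (xx φ t) *
        ((DD a φ t)^[k] (u t)) (m + 1) - (m : ℂ) * ((DD a φ t)^[k] (u t)) m := by
      funext t; rw [Function.iterate_succ_apply']; rfl
    rw [e]
    exact ((hx.mul (ih _)).add ((continuous_const.mul hX).mul (ih _))).sub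
      (continuous_const.mul (ih _))

lemma QQ0 (a : ℝ) (φ : ℂ → ℂ) (t : ℝ) : QQ a φ 0 t = fun m => HH a φ m t := by
  funext m
  unfold QQ HH
  simp

lemma conj_int (f : ℝ → ℂ) (p q : ℝ) : conj (∫ t in p..q, f t) = ∫ t in p..q, conj (f t) := by
  simp only [intervalIntegral, map_sub, integral_conj]

lemma exact0 {F f : ℝ → ℂ} (h : ∀ t, HasDerivAt F (f t) t) (hf : Continuous f)
    (hp : F (2 * Real.pi) = F 0) : ∫ t in (0 : ℝ)..(2 * Real.pi), f t = 0 := by
  rw [intervalIntegral.integral_eq_sub_of_hasDerivAt (fun t _ => h t)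
    (hf.intervalIntegrable _ _), hp, sub_self]

/-- one differentiation of the symmetry -/
lemma step {f0 f1 g0 g1 : ℝ → ℂ} {c : ℂ} {n : ℝ} (hf : ∀ s, HasDerivAt f0 (f1 s) s)
    (hg : ∀ s, HasDerivAt g0 (g1 s) s)
    (h : ∀ s, conj (f0 s) = c * (Real.exp (-s * n) : ℂ) * g0 s) :
    ∀ s, conj (f1 s) = c * (Real.exp (-s * n) : ℂ) * (g1 s - (n : ℂ) * g0 s) := by
  intro s
  have h1 : HasDerivAt (fun s => conj (f0 s)) (conj (f1 s)) s := (hf s).star
  have h2 : HasDerivAt (fun s : ℝ => (Real.exp (-s * n) : ℂ))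
      ((Real.exp (-s * n) * (-n) : ℝ) : ℂ) s := by
    have : HasDerivAt (fun s : ℝ => Real.exp (-s * n)) (Real.exp (-s * n) * (-1 * n)) s :=
      ((hasDerivAt_neg s).mul_const n).exp
    have h3 := this.ofReal_comp
    refine h3.congr_deriv ?_
    push_cast; ring
  have h3 : HasDerivAt (fun s => c * (Real.exp (-s * n) : ℂ) * g0 s)
      (c * ((Real.exp (-s * n) * (-n) : ℝ) : ℂ) * g0 s + c * (Real.exp (-s * n) : ℂ) * g1 s) s :=
    (h2.const_mul c).mul (hg s)
  have e : (fun s => conj (f0 s)) = fun s => c * (Real.exp (-s * n) : ℂ) * g0 s := funext h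
  rw [e] at h1
  rw [h1.unique h3]
  push_cast
  ring

/-- values of `𝒟^k ℓ` -/
lemma ev (a : ℝ) (φ : ℂ → ℂ) (t : ℝ) :
    el a φ t (-3) = (a : ℂ) * (conj (xd φ t) / xd φ t) ∧
    ((DD a φ t)^[1] (el a φ t)) (-2) =
      xx φ t * ((a : ℂ) * (conj (xd φ t) / xd φ t)) + (a : ℂ) * conj (xx φ t) ∧
    ((DD a φ t)^[2] (el a φ t)) (-1) =
      xx φ t * (xx φ t * ((a : ℂ) * (conj (xd φ t) / xd φ t)) + (a : ℂ) * conj (xx φ t)) +
        (a : ℂ) * conj (xx φ t) * xx φ t + 1 ∧
    ((DD a φ t)^[3] (el a φ t)) 0 =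
      xx φ t * (xx φ t * (xx φ t * ((a : ℂ) * (conj (xd φ t) / xd φ t)) +
        (a : ℂ) * conj (xx φ t)) + (a : ℂ) * conj (xx φ t) * xx φ t + 1) +
        (a : ℂ) * conj (xx φ t) * xx φ t ^ 2 ∧
    ((DD a φ t)^[2] (el a φ t)) 1 = xx φ t ^ 2 ∧
    ((DD a φ t)^[1] (el a φ t)) 1 = 0 ∧ el a φ t 1 = 0 ∧
    ((DD a φ t)^[1] (el a φ t)) 2 = 0 ∧ el a φ t 2 = 0 ∧ el a φ t 3 = 0 := by
  refine ⟨?_, ?_, ?_, ?_, ?_, ?_, ?_, ?_, ?_, ?_⟩ <;>
    simp [Function.iterate_succ, DD, el] <;> first | ring1 | (left; ring1)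

lemma g4 (k1 : K1) (g1 : ∀ (φ : ℂ → ℂ) (r lam : ℝ), 1 < r →
    DifferentiableOn ℂ φ (ball 0 r) → InjOn φ (ball 0 r) → 0 < lam →
    Solvable (φ '' ball 0 1) lam → ∀ (k : ℕ) (m : ℤ), (k : ℤ) - 3 ≤ m →
    ∫ t in (0 : ℝ)..(2 * Real.pi), ((DD (lam / 4) φ t)^[k]
      (fun m => el (lam / 4) φ t m + HH (lam / 4) φ m t)) m * conj (xd φ t) = 0)
    (g2 : ∀ (a : ℝ) (φ : ℂ → ℂ) (r : ℝ), 1 < r → DifferentiableOn ℂ φ (ball 0 r) →
      ∀ (k : ℕ) (m : ℤ) (σ : ℝ), HasDerivAt (TT a φ k m) (TT a φ (k + 1) m σ) σ)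
    (g3 : ∀ (φ : ℂ → ℂ) (r lam : ℝ), 1 < r →
      DifferentiableOn ℂ φ (ball 0 r) → InjOn φ (ball 0 r) → 0 < lam →
      Solvable (φ '' ball 0 1) lam → ∀ (m : ℤ) (σ : ℝ),
      conj (TT (lam / 4) φ 0 m σ) =
        -(((lam / 4 : ℝ) : ℂ) ^ (-m) * (Real.exp (-σ * m) : ℂ) * TT (lam / 4) φ 0 (-m) σ)) :
    G4 := by
  intro φ r lam hr hφ hinj hlam hS
  have hx := xx_cont hr hφ
  have hxd := xd_cont hr hφ
  have hX : Continuous fun t => conj (xx φ t) := Complex.continuous_conj.comp hx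
  have hXd : Continuous fun t => conj (xd φ t) := Complex.continuous_conj.comp hxd
  have hne : ∀ t, xd φ t ≠ 0 := fun t => by
    unfold xd
    exact mul_ne_zero (mul_ne_zero I_ne_zero (exp_ne_zero _))
      (Pool.Agent.Helper202.Geom.deriv_ne_zero_of_injOn isOpen_ball hφ hinj (mem_r hr t))
  have hq : Continuous fun t => conj (xd φ t) / xd φ t := hXd.div hxd hne
  set a : ℝ := lam / 4 with ha
  have ha0 : 0 < a := by positivity
  have hac : (a : ℂ) ≠ 0 := by rw [Ne, Complex.ofReal_eq_zero]; exact ha0.ne'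
  -- the values of `TT` at `0`
  have hel : ∀ m, Continuous fun t => el a φ t m := by
    intro m
    unfold el
    split_ifs
    · exact continuous_const
    · exact continuous_const.mul hq
    · exact continuous_const
  have hHH : ∀ m, Continuous fun t => HH a φ m t := fun m => HH_cont k1 a hr hφ m
  have hT : ∀ (k : ℕ) (m : ℤ), (k : ℤ) - 3 ≤ m → TT a φ k m 0 =
      -∫ t in (0 : ℝ)..(2 * Real.pi), ((DD a φ t)^[k] (el a φ t)) m * conj (xd φ t) := by
    intro k m hm
    have h := g1 φ r lam hr hφ hinj hlam hS k m hm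
    have i1 : Continuous fun t => ((DD a φ t)^[k] (el a φ t)) m * conj (xd φ t) :=
      (DDi_cont a hr hφ (fun t => el a φ t) hel k m).mul hXd
    have i2 : Continuous fun t => ((DD a φ t)^[k] (fun m => HH a φ m t)) m * conj (xd φ t) :=
      (DDi_cont a hr hφ (fun t m => HH a φ m t) hHH k m).mul hXd
    have e : (fun t => ((DD a φ t)^[k] (fun m => el a φ t m + HH a φ m t)) m * conj (xd φ t)) =
        fun t => ((DD a φ t)^[k] (el a φ t)) m * conj (xd φ t) +
          ((DD a φ t)^[k] (fun m => HH a φ m t)) m * conj (xd φ t) := by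
      funext t
      rw [DDi_add]
      ring
    rw [← ha, e, intervalIntegral.integral_add (i1.intervalIntegrable _ _)
      (i2.intervalIntegrable _ _)] at h
    have e2 : TT a φ k m 0 = ∫ t in (0 : ℝ)..(2 * Real.pi),
        ((DD a φ t)^[k] (fun m => HH a φ m t)) m * conj (xd φ t) := by
      unfold TT
      simp only [QQ0]
    rw [e2]
    linear_combination h
  -- the symmetry and its derivatives
  have hg3 : ∀ (m : ℤ) (s : ℝ), conj (TT a φ 0 m s) =
      -(a : ℂ) ^ (-m) * (Real.exp (-s * (m : ℝ)) : ℂ) * TT a φ 0 (-m) s := by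
    intro m s
    rw [g3 φ r lam hr hφ hinj hlam hS m s]
    ring
  have hd : ∀ (k : ℕ) (m : ℤ) (s : ℝ), HasDerivAt (TT a φ k m) (TT a φ (k + 1) m s) s :=
    fun k m s => g2 a φ r hr hφ k m s
  have s0 := hg3 (-3) 0
  have s1 := step (hd 0 (-2)) (hd 0 (-(-2))) (hg3 (-2)) 0
  have s2 := step (hd 1 (-1)) (fun s => (hd 1 (-(-1)) s).sub ((hd 0 (-(-1)) s).const_mul _))
    (step (hd 0 (-1)) (hd 0 (-(-1))) (hg3 (-1))) 0
  have s3 := step (hd 2 0) (fun s => ((hd 2 (-0) s).sub ((hd 1 (-0) s).const_mul _)).sub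
    (((hd 1 (-0) s).sub ((hd 0 (-0) s).const_mul _)).const_mul _))
    (step (hd 1 0) (fun s => (hd 1 (-0) s).sub ((hd 0 (-0) s).const_mul _))
    (step (hd 0 0) (hd 0 (-0)) (hg3 0))) 0
  simp only [neg_neg, neg_zero, zero_mul, Real.exp_zero, Complex.ofReal_one, mul_one,
    Int.cast_neg, Int.cast_ofNat, Int.cast_one, Int.cast_zero, Complex.ofReal_neg,
    Complex.ofReal_ofNat, zpow_ofNat, zpow_one, zpow_zero, Complex.ofReal_zero,
    sub_zero, Nat.reduceAdd, zero_add, Pi.sub_apply] at s0 s1 s2 s3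
  -- derivatives
  have hdx : ∀ t : ℝ, HasDerivAt (xx φ) (xd φ t) t := fun t => xx_der hr hφ t
  have hdX : ∀ t : ℝ, HasDerivAt (fun t => conj (xx φ t)) (conj (xd φ t)) t := fun t =>
    (xx_der hr hφ t).star
  have hper := xx_per φ
  -- exact integrals
  have p1 : ∫ t in (0 : ℝ)..(2 * Real.pi), conj (xd φ t) = 0 :=
    exact0 hdX hXd (by rw [hper])
  have p2 := xXd0 hr hφ
  have p3 : 2 * conj (∫ t in (0 : ℝ)..(2 * Real.pi), xx φ t * conj (xx φ t) * conj (xd φ t)) +
      ∫ t in (0 : ℝ)..(2 * Real.pi), xx φ t ^ 2 * conj (xd φ t) = 0 := by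
    have c1 : Continuous fun t => conj (xx φ t * conj (xx φ t) * conj (xd φ t)) :=
      Complex.continuous_conj.comp ((hx.mul hX).mul hXd)
    have c2 : Continuous fun t => 2 * conj (xx φ t * conj (xx φ t) * conj (xd φ t)) :=
      continuous_const.mul c1
    have c3 : Continuous fun t => xx φ t ^ 2 * conj (xd φ t) := (hx.pow 2).mul hXd
    rw [conj_int, ← intervalIntegral.integral_const_mul,
      ← intervalIntegral.integral_add (c2.intervalIntegrable _ _) (c3.intervalIntegrable _ _)]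
    refine exact0 (F := fun t => xx φ t ^ 2 * conj (xx φ t)) (fun t => ?_) (c2.add c3)
      (by simp only [hper])
    have h := ((hdx t).pow 2).mul (hdX t)
    refine h.congr_deriv ?_
    simp only [map_mul, Complex.conj_conj]
    norm_num
    ring
  have p4 : (∫ t in (0 : ℝ)..(2 * Real.pi), xx φ t * conj (xd φ t)) +
      conj (∫ t in (0 : ℝ)..(2 * Real.pi), xx φ t * conj (xd φ t)) = 0 := by
    have c1 : Continuous fun t => conj (xx φ t * conj (xd φ t)) :=
      Complex.continuous_conj.comp (hx.mul hXd)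
    have c3 : Continuous fun t => xx φ t * conj (xd φ t) := hx.mul hXd
    rw [conj_int,
      ← intervalIntegral.integral_add (c3.intervalIntegrable _ _) (c1.intervalIntegrable _ _)]
    refine exact0 (F := fun t => xx φ t * conj (xx φ t)) (fun t => ?_) (c3.add c1)
      (by simp only [hper])
    have h := (hdx t).mul (hdX t)
    refine h.congr_deriv ?_
    simp only [map_mul, Complex.conj_conj]
    ring
  have p5 : (∫ t in (0 : ℝ)..(2 * Real.pi), xx φ t ^ 2 * conj (xx φ t) * conj (xd φ t)) +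
      conj (∫ t in (0 : ℝ)..(2 * Real.pi), xx φ t ^ 2 * conj (xx φ t) * conj (xd φ t)) = 0 := by
    have c1 : Continuous fun t => conj (xx φ t ^ 2 * conj (xx φ t) * conj (xd φ t)) :=
      Complex.continuous_conj.comp (((hx.pow 2).mul hX).mul hXd)
    have c3 : Continuous fun t => xx φ t ^ 2 * conj (xx φ t) * conj (xd φ t) :=
      ((hx.pow 2).mul hX).mul hXd
    rw [conj_int,
      ← intervalIntegral.integral_add (c3.intervalIntegrable _ _) (c1.intervalIntegrable _ _)]
    refine exact0 (F := fun t => xx φ t ^ 2 * conj (xx φ t) ^ 2 / 2) (fun t => ?_) (c3.add c1)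
      (by simp only [hper])
    have h := (((hdx t).pow 2).mul ((hdX t).pow 2)).div_const 2
    refine h.congr_deriv ?_
    simp only [map_mul, map_pow, Complex.conj_conj]
    norm_num
    ring
  -- values of TT
  have cq : Continuous fun t => conj (xd φ t) ^ 2 / xd φ t := (hXd.pow 2).div hxd hne
  have t1 : TT a φ 0 (-3) 0 = -((a : ℂ) * J1 φ) := by
    rw [hT 0 (-3) (by norm_num)]
    unfold J1
    rw [← intervalIntegral.integral_const_mul]
    congr 2
    funext t
    simp only [Function.iterate_zero, id]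
    rw [(ev a φ t).1]; ring
  have t2 : TT a φ 0 3 0 = 0 := by
    rw [hT 0 3 (by norm_num)]
    simp only [Function.iterate_zero, id]
    simp only [(ev a φ _).2.2.2.2.2.2.2.2.2, zero_mul, intervalIntegral.integral_zero, neg_zero]
  have t3 : TT a φ 1 (-2) 0 = -((a : ℂ) * J2 φ) := by
    rw [hT 1 (-2) (by norm_num)]
    have e : (a : ℂ) * J2 φ = (a : ℂ) * J2 φ + (a : ℂ) *
        ∫ t in (0 : ℝ)..(2 * Real.pi), conj (xx φ t) * conj (xd φ t) := by
      rw [p2, mul_zero, add_zero]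
    rw [e]
    unfold J2
    have c1 : Continuous fun t => (a : ℂ) * (xx φ t * (conj (xd φ t) ^ 2 / xd φ t)) :=
      continuous_const.mul (hx.mul cq)
    have c2 : Continuous fun t => (a : ℂ) * (conj (xx φ t) * conj (xd φ t)) :=
      continuous_const.mul (hX.mul hXd)
    rw [← intervalIntegral.integral_const_mul, ← intervalIntegral.integral_const_mul,
      ← intervalIntegral.integral_add (c1.intervalIntegrable _ _) (c2.intervalIntegrable _ _)]
    congr 2
    funext t
    rw [(ev a φ t).2.1]; ring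
  have t4 : TT a φ 1 2 0 = 0 := by
    rw [hT 1 2 (by norm_num)]
    simp only [(ev a φ _).2.2.2.2.2.2.2.1, zero_mul, intervalIntegral.integral_zero, neg_zero]
  have t5 : TT a φ 0 2 0 = 0 := by
    rw [hT 0 2 (by norm_num)]
    simp only [Function.iterate_zero, id]
    simp only [(ev a φ _).2.2.2.2.2.2.2.2.1, zero_mul, intervalIntegral.integral_zero, neg_zero]
  have t6 : TT a φ 2 (-1) 0 = -((a : ℂ) * J3 φ + 2 * (a : ℂ) *
      (∫ t in (0 : ℝ)..(2 * Real.pi), xx φ t * conj (xx φ t) * conj (xd φ t)) +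
      ∫ t in (0 : ℝ)..(2 * Real.pi), conj (xd φ t)) := by
    rw [hT 2 (-1) (by norm_num)]
    unfold J3
    have c1 : Continuous fun t => (a : ℂ) * (xx φ t ^ 2 * (conj (xd φ t) ^ 2 / xd φ t)) :=
      continuous_const.mul ((hx.pow 2).mul cq)
    have c2 : Continuous fun t => 2 * (a : ℂ) * (xx φ t * conj (xx φ t) * conj (xd φ t)) :=
      continuous_const.mul ((hx.mul hX).mul hXd)
    have c3 : Continuous fun t => (a : ℂ) * (xx φ t ^ 2 * (conj (xd φ t) ^ 2 / xd φ t)) +
      2 * (a : ℂ) * (xx φ t * conj (xx φ t) * conj (xd φ t)) := c1.add c2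
    rw [← intervalIntegral.integral_const_mul, ← intervalIntegral.integral_const_mul,
      ← intervalIntegral.integral_add (c1.intervalIntegrable _ _) (c2.intervalIntegrable _ _),
      ← intervalIntegral.integral_add (c3.intervalIntegrable _ _) (hXd.intervalIntegrable _ _)]
    congr 2
    funext t
    rw [(ev a φ t).2.2.1]; ring
  have t7 : TT a φ 2 1 0 = -∫ t in (0 : ℝ)..(2 * Real.pi), xx φ t ^ 2 * conj (xd φ t) := by
    rw [hT 2 1 (by norm_num)]
    simp only [(ev a φ _).2.2.2.2.1]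
  have t8 : TT a φ 1 1 0 = 0 := by
    rw [hT 1 1 (by norm_num)]
    simp only [(ev a φ _).2.2.2.2.2.1, zero_mul, intervalIntegral.integral_zero, neg_zero]
  have t9 : TT a φ 0 1 0 = 0 := by
    rw [hT 0 1 (by norm_num)]
    simp only [Function.iterate_zero, id]
    simp only [(ev a φ _).2.2.2.2.2.2.1, zero_mul, intervalIntegral.integral_zero, neg_zero]
  have t10 : TT a φ 3 0 0 = -((a : ℂ) * J4 φ + 3 * (a : ℂ) *
      (∫ t in (0 : ℝ)..(2 * Real.pi), xx φ t ^ 2 * conj (xx φ t) * conj (xd φ t)) +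
      ∫ t in (0 : ℝ)..(2 * Real.pi), xx φ t * conj (xd φ t)) := by
    rw [hT 3 0 (by norm_num)]
    unfold J4
    have c1 : Continuous fun t => (a : ℂ) * (xx φ t ^ 3 * (conj (xd φ t) ^ 2 / xd φ t)) :=
      continuous_const.mul ((hx.pow 3).mul cq)
    have c2 : Continuous fun t => 3 * (a : ℂ) * (xx φ t ^ 2 * conj (xx φ t) * conj (xd φ t)) :=
      continuous_const.mul (((hx.pow 2).mul hX).mul hXd)
    have c3 : Continuous fun t => (a : ℂ) * (xx φ t ^ 3 * (conj (xd φ t) ^ 2 / xd φ t)) +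
      3 * (a : ℂ) * (xx φ t ^ 2 * conj (xx φ t) * conj (xd φ t)) := c1.add c2
    have c4 : Continuous fun t => xx φ t * conj (xd φ t) := hx.mul hXd
    rw [← intervalIntegral.integral_const_mul, ← intervalIntegral.integral_const_mul,
      ← intervalIntegral.integral_add (c1.intervalIntegrable _ _) (c2.intervalIntegrable _ _),
      ← intervalIntegral.integral_add (c3.intervalIntegrable _ _) (c4.intervalIntegrable _ _)]
    congr 2
    funext t
    rw [(ev a φ t).2.2.2.1]; ring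
  have hc : ∀ z : ℂ, conj z = 0 → z = 0 := fun z hz => by simpa using hz
  have hca : conj (a : ℂ) = (a : ℂ) := Complex.conj_ofReal a
  refine ⟨?_, ?_, ?_, ?_⟩
  · rw [t1, t2, mul_zero] at s0
    have := hc _ s0
    rw [neg_eq_zero] at this
    exact (mul_eq_zero.mp this).resolve_left hac
  · rw [t3, t4, t5] at s1
    have := hc _ (s1.trans (by ring))
    rw [neg_eq_zero] at this
    exact (mul_eq_zero.mp this).resolve_left hac
  · rw [t6, t7, t8, t9, p1] at s2
    simp only [map_neg, map_add, map_mul, hca, map_ofNat, map_zero] at s2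
    have h1 : (a : ℂ) * conj (J3 φ) = 0 := by linear_combination -s2 - (a : ℂ) * p3
    exact hc _ ((mul_eq_zero.mp h1).resolve_left hac)
  · rw [t10] at s3
    simp only [map_neg, map_add, map_mul, hca, map_ofNat, map_zero, pow_zero] at s3
    have h1 : (a : ℂ) * (J4 φ + conj (J4 φ)) = 0 := by
      linear_combination -s3 - 3 * (a : ℂ) * p5 - p4
    have h2 := (mul_eq_zero.mp h1).resolve_left hac
    rw [Complex.add_conj] at h2
    have h3 : 2 * (J4 φ).re = 0 := by exact_mod_cast h2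
    linarith

end Pool.Agent.E8helper4.FV
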