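import Pool.Agent.E8helper4.FV2.Fin2
import Pool.Agent.E8helper4.FV3.G4
import Pool.Agent.E8helper10.FV3.G2
import Pool.Agent.E8helper56.FV.G3
import Pool.Agent.E8helper6.FV3.G56

set_option autoImplicit false

namespace Pool.Agent.E8helper4.FV

theorem t_G4 : G4 :=
  g4 Pool.Agent.E8helper8.FV.t_K1
    (t_G1 Pool.Agent.E8helper8.FV.t_K1 Pool.Agent.E8helper99.FV.t_K1b Pool.Agent.E8helper80.FV.k2
      Pool.Agent.E8helper97.FV.k3 Pool.Agent.E8helper43.FV.k4)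
    (Pool.Agent.E8helper10.FV3.t_G2 Pool.Agent.E8helper8.FV.t_K1)
    (Pool.Agent.E8helper56.FV.t_G3 Pool.Agent.E8helper8.FV.t_K1 Pool.Agent.E8helper99.FV.t_K1b
      Pool.Agent.E8helper38.FV.t_C1)

end Pool.Agent.E8helper4.FV
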