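import Pool.Agent.E8helper4.FV.Stm3
import Pool.Agent.E8helper4.FV2.K5

set_option autoImplicit false
set_option linter.unusedVariables false

open Complex MeasureTheory Metric Set Filter Topology ComplexConjugate
open Pool.Agent.Results.MP_83fd13_an.BranchSingularities (Solvable)

namespace Pool.Agent.E8helper4.FV

/-- families closed under integration, with the boundary values of their series -/
structure Adm (a : ℝ) (φ : ℂ → ℂ) (r : ℝ) (S : ℤ → ℂ → ℂ) (m0 : ℤ) (F : ℝ → ℤ → ℂ) : Prop where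
  dif : ∀ m, DifferentiableOn ℂ (S m) (ball 0 r)
  der : ∀ m, ∀ w ∈ ball (0 : ℂ) r, deriv (S (m + 1)) w = S m w * deriv φ w
  bnd : ∃ C M : ℝ, 0 ≤ C ∧ 1 ≤ M ∧ ∀ k : ℕ, ∀ w ∈ closedBall (0 : ℂ) 1,
    ‖S (m0 + k) w‖ ≤ C * M ^ k
  val : ∀ m, m0 ≤ m → ∀ t : ℝ, HasSum (fun k : ℕ => (-(a : ℂ) * conj (xx φ t)) ^ k /
    (k.factorial : ℂ) * S (m + k) (exp ((t : ℂ) * I))) (F t m)

lemma adm_step {a : ℝ} {φ : ℂ → ℂ} {r : ℝ} (hr : 1 < r) (hφ : DifferentiableOn ℂ φ (ball 0 r))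
    {S : ℤ → ℂ → ℂ} {m0 : ℤ} {F : ℝ → ℤ → ℂ} (h : Adm a φ r S m0 F) :
    Adm a φ r (fun m w => φ w * S (m - 1) w - (m : ℂ) * S m w) (m0 + 1)
      (fun t => DD a φ t (F t)) := by
  refine ⟨fun m => (hφ.mul (h.dif _)).sub ((h.dif _).const_mul _), ?_, ?_, ?_⟩
  · intro m w hw
    have hd : ∀ n, DifferentiableAt ℂ (S n) w := fun n =>
      (h.dif n w hw).differentiableAt (isOpen_ball.mem_nhds hw)
    have hdφ : DifferentiableAt ℂ φ w := (hφ w hw).differentiableAt (isOpen_ball.mem_nhds hw)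
    have e1 := h.der m w hw
    have e2 := h.der (m - 1) w hw
    rw [sub_add_cancel] at e2
    have e3 : m + 1 - 1 = m := by ring
    show deriv (fun w => φ w * S (m + 1 - 1) w - ((m + 1 : ℤ) : ℂ) * S (m + 1) w) w = _
    rw [e3]
    have h1 : HasDerivAt (fun w => φ w * S m w - ((m + 1 : ℤ) : ℂ) * S (m + 1) w)
        (deriv φ w * S m w + φ w * deriv (S m) w - ((m + 1 : ℤ) : ℂ) * deriv (S (m + 1)) w) w :=
      (hdφ.hasDerivAt.mul (hd _).hasDerivAt).sub ((hd _).hasDerivAt.const_mul _)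
    rw [h1.deriv, e1, e2]
    push_cast; ring
  · obtain ⟨C, M, hC, hM, hb⟩ := h.bnd
    have hsub : closedBall (0 : ℂ) 1 ⊆ ball 0 r := closedBall_subset_ball hr
    obtain ⟨B, hB⟩ := (isCompact_closedBall (0 : ℂ) 1).exists_bound_of_continuousOn
      (hφ.continuousOn.mono hsub)
    have hB0 : 0 ≤ B := le_trans (norm_nonneg _) (hB 0 (by simp))
    refine ⟨B * C + (|(m0 : ℝ)| + 2) * (C * M), 2 * M, by positivity, by linarith, ?_⟩
    intro k w hw
    have b1 := hB w hw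
    have b2 := hb k w hw
    have b3 := hb (k + 1) w hw
    have b4 : (k : ℝ) + 1 ≤ 2 ^ k := by exact_mod_cast Nat.succ_le_of_lt (Nat.lt_two_pow_self (n := k))
    have b5 : (1 : ℝ) ≤ 2 ^ k := one_le_pow₀ (by norm_num)
    have e1 : m0 + 1 + (k : ℤ) - 1 = m0 + k := by ring
    have e2 : m0 + 1 + (k : ℤ) = m0 + ((k + 1 : ℕ) : ℤ) := by push_cast; ring
    have n1 : ‖((m0 + 1 + (k : ℤ) : ℤ) : ℂ)‖ ≤ (|(m0 : ℝ)| + 2) * 2 ^ k := by
      rw [Complex.norm_intCast]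
      push_cast
      calc |(m0 : ℝ) + 1 + k| ≤ |(m0 : ℝ)| + (k + 1) := by
            rw [show (m0 : ℝ) + 1 + k = m0 + (k + 1) by ring]
            refine (abs_add_le _ _).trans ?_
            rw [abs_of_nonneg (show (0 : ℝ) ≤ (k : ℝ) + 1 by positivity)]
        _ ≤ |(m0 : ℝ)| * 2 ^ k + 2 * 2 ^ k := by
            have : |(m0 : ℝ)| ≤ |(m0 : ℝ)| * 2 ^ k := le_mul_of_one_le_right (abs_nonneg _) b5
            nlinarith
        _ = (|(m0 : ℝ)| + 2) * 2 ^ k := by ring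
    calc ‖φ w * S (m0 + 1 + (k : ℤ) - 1) w - ((m0 + 1 + (k : ℤ) : ℤ) : ℂ) * S (m0 + 1 + (k : ℤ)) w‖
        ≤ ‖φ w‖ * ‖S (m0 + k) w‖ + ‖((m0 + 1 + (k : ℤ) : ℤ) : ℂ)‖ * ‖S (m0 + ((k + 1 : ℕ) : ℤ)) w‖ := by
          refine (norm_sub_le _ _).trans ?_
          rw [norm_mul, norm_mul, e1]
          rw [show S (m0 + 1 + (k : ℤ)) w = S (m0 + ((k + 1 : ℕ) : ℤ)) w by rw [e2]]
      _ ≤ B * (C * M ^ k) + ((|(m0 : ℝ)| + 2) * 2 ^ k) * (C * M ^ (k + 1)) := by gcongr
      _ ≤ B * (C * (2 ^ k * M ^ k)) + ((|(m0 : ℝ)| + 2) * 2 ^ k) * (C * M ^ (k + 1)) := by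
          have : M ^ k ≤ 2 ^ k * M ^ k := le_mul_of_one_le_left (by positivity) b5
          gcongr
      _ = (B * C + (|(m0 : ℝ)| + 2) * (C * M)) * (2 * M) ^ k := by rw [mul_pow, pow_succ]; ring
  · intro m hm t
    have s1 := (h.val (m - 1) (by omega) t).mul_left (xx φ t)
    have s2 := (h.val (m + 1) (by omega) t).mul_left ((a : ℂ) * conj (xx φ t))
    have s3 := (h.val m (by omega) t).mul_left (m : ℂ)
    set Z : ℂ := -(a : ℂ) * conj (xx φ t) with hZ
    have s4 : HasSum (fun k : ℕ => Z ^ k / (k.factorial : ℂ) *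
        (-(k : ℂ) * S (m + k) (exp ((t : ℂ) * I)))) ((a : ℂ) * conj (xx φ t) * F t (m + 1)) := by
      rw [← hasSum_nat_add_iff' 1]
      simp only [Finset.sum_range_one, Nat.cast_zero, neg_zero, zero_mul, mul_zero, sub_zero]
      refine hs_congr (fun k => ?_) s2
      have e : m + ((k + 1 : ℕ) : ℤ) = m + 1 + k := by push_cast; ring
      rw [e, Nat.factorial_succ]
      have hk : ((k : ℂ) + 1) ≠ 0 := by exact_mod_cast Nat.succ_ne_zero k
      have hk2 : (k.factorial : ℂ) ≠ 0 := by exact_mod_cast Nat.factorial_ne_zero k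
      have e3 : (a : ℂ) * conj (xx φ t) = -Z := by rw [hZ]; ring
      rw [e3]
      push_cast
      field_simp
      ring
    have s5 := (s1.add s4).sub s3
    refine hs_congr (fun k => ?_) s5
    have e : m + (k : ℤ) - 1 = m - 1 + k := by ring
    rw [e]
    show _ = xx φ t * _ + _ - _
    simp only [xx]
    push_cast
    ring

lemma adm_iter {a : ℝ} {φ : ℂ → ℂ} {r : ℝ} (hr : 1 < r) (hφ : DifferentiableOn ℂ φ (ball 0 r))
    {S : ℤ → ℂ → ℂ} {m0 : ℤ} {F : ℝ → ℤ → ℂ} (h : Adm a φ r S m0 F) (k : ℕ) :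
    ∃ S', Adm a φ r S' (m0 + k) (fun t => (DD a φ t)^[k] (F t)) := by
  induction k with
  | zero => exact ⟨S, by simpa using h⟩
  | succ k ih =>
    obtain ⟨S', h'⟩ := ih
    have := adm_step hr hφ h'
    refine ⟨fun m w => φ w * S' (m - 1) w - (m : ℂ) * S' m w, ?_⟩
    have e : (fun t => (DD a φ t)^[k + 1] (F t)) = fun t => DD a φ t ((DD a φ t)^[k] (F t)) := by
      funext t; rw [Function.iterate_succ_apply']
    rw [e]
    have e2 : m0 + ((k + 1 : ℕ) : ℤ) = m0 + k + 1 := by push_cast; ring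
    rw [e2]
    exact this

lemma adm_int (h4 : K4) {φ : ℂ → ℂ} {r lam : ℝ} (hr : 1 < r)
    (hφ : DifferentiableOn ℂ φ (ball 0 r)) (hinj : InjOn φ (ball 0 r)) (hlam : 0 < lam)
    (hS : Solvable (φ '' ball 0 1) lam) {S : ℤ → ℂ → ℂ} {m0 : ℤ} {F : ℝ → ℤ → ℂ}
    (h : Adm (lam / 4) φ r S m0 F) (m : ℤ) (hm : m0 ≤ m) :
    ∫ t in (0 : ℝ)..(2 * Real.pi), F t m * conj (xd φ t) = 0 := by
  obtain ⟨C, M, hC, hM, hb⟩ := h.bnd
  obtain ⟨j, rfl⟩ : ∃ j : ℕ, m = m0 + j := ⟨(m - m0).toNat, by omega⟩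
  have hbd : ∀ (k : ℕ), ∀ w ∈ closedBall (0 : ℂ) 1, ‖S (m0 + j + k) w‖ ≤ C * M ^ j * M ^ k := by
    intro k w hw
    have := hb (j + k) w hw
    have e : m0 + ((j + k : ℕ) : ℤ) = m0 + j + k := by push_cast; ring
    rw [e, pow_add, ← mul_assoc] at this
    exact this
  have g := h4 φ r lam hr hφ hinj hlam hS (fun k => S (m0 + j + k)) (fun k => h.dif _)
    (fun k w hw => by
      have := h.der (m0 + j + k) w hw
      have e : m0 + j + ((k + 1 : ℕ) : ℤ) = m0 + j + k + 1 := by push_cast; ring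
      show deriv (S (m0 + j + ((k + 1 : ℕ) : ℤ))) w = _
      rw [e]; exact this)
    ⟨C * M ^ j, M, hbd⟩
  exact exch (lam / 4) hr hφ (fun k t => S (m0 + j + k) (exp ((t : ℂ) * I))) _
    (fun k => cont_circ hr (h.dif _)) (C * M ^ j) M (fun k t => hbd k _ (mem_c t))
    (fun t => h.val _ hm t) g

lemma el_of (a : ℝ) (φ : ℂ → ℂ) (t : ℝ) (m : ℤ) (hm : -3 ≤ m) :
    HasSum (fun k : ℕ => (-(a : ℂ) * conj (xx φ t)) ^ k / (k.factorial : ℂ) *
      LL a φ (m + k) t) (el a φ t m) := by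
  rcases lt_or_ge m 0 with h | h
  · have : m = -1 ∨ m = -2 ∨ m = -3 := by omega
    rcases this with rfl | rfl | rfl
    · have := loc2 a φ t
      simpa [el] using this
    · have h := fin_sum (fun k : ℕ =>
        (-(a : ℂ) * conj (xx φ t)) ^ k / (k.factorial : ℂ) * LL a φ (-2 + k) t) 2 (by
          intro k hk
          have : LL a φ (-2 + k) t = 0 := by
            unfold LL
            rw [if_neg (by omega), if_neg (by omega), if_neg (by omega)]
          rw [this, mul_zero])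
      convert h using 1
      simp only [Finset.sum_range_succ, Finset.sum_range_zero, LL, el]
      norm_num
    · have := loc3 a φ t
      simpa [el] using this
  · have := locp a φ t m h
    have e : el a φ t m = 0 := by
      unfold el
      rw [if_neg (by omega), if_neg (by omega)]
    rw [e]; exact this

theorem t_G1 : G1 := by
  intro h1 h1b h2 h3 h4 φ r lam hr hφ hinj hlam hS k m hm
  obtain ⟨N, C, hN⟩ := fam h1 h1b h2 h3 hr hφ hinj hlam hS
  have hC0 : 0 ≤ C := le_trans (norm_nonneg _) (hN.bnd 0 (by norm_num) 0 (by simp))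
  have hA : Adm (lam / 4) φ r N (-3) (fun t m => el (lam / 4) φ t m + HH (lam / 4) φ m t) := by
    refine ⟨hN.dif, hN.der, ⟨C, 1, hC0, le_rfl, fun k w hw => ?_⟩, fun m hm t => ?_⟩
    · rw [one_pow, mul_one]; exact hN.bnd _ (by omega) w hw
    · have := ser h1 (lam / 4) hr hφ m t _ (el_of (lam / 4) φ t m hm)
      exact hs_congr (fun k => by rw [hN.val _ (by omega) t]) this
  obtain ⟨S', hS'⟩ := adm_iter hr hφ hA k
  exact adm_int h4 hr hφ hinj hlam hS hS' m (by omega)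

end Pool.Agent.E8helper4.FV
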